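import Pool.Agent.helper48.AGR.Spec

/-!
# Row VGW: `V` in the groups `W w J`
-/

set_option autoImplicit false

namespace Pool.Agent.AGR

open Monoid Function

theorem VGW_inl (J : Type) : VG (MonoidHom.inl Vt (FreeGroup J)) where
  inj := fun a b h => congrArg Prod.fst h
  nrm := fun x a => ⟨a, by
    refine Prod.ext ?_ ?_
    · change x.1 * a * x.1⁻¹ = a
      rw [mul_comm x.1 a, mul_inv_cancel_right]
    · change x.2 * 1 * x.2⁻¹ = 1
      rw [mul_one, mul_inv_cancel]⟩
  tf := by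
    rintro x - n hn ⟨a, ha⟩
    refine ⟨x.1, Prod.ext rfl ?_⟩
    have h2 : x.2 ^ n = 1 := congrArg Prod.snd ha
    exact (pow_eq_one_iff_left hn).1 h2

theorem VGW (hVGA : VGA_stmt) : VGW_stmt := by
  intro X _ w J hw
  have hw' : VG (w.comp (MonoidHom.id Vt)) := by rwa [MonoidHom.comp_id]
  have h2 : VG ((MonoidHom.inl Vt (FreeGroup J)).comp (MonoidHom.id Vt)) := by
    rw [MonoidHom.comp_id]
    exact VGW_inl J
  have h := hVGA X (Vt × FreeGroup J) Vt w (MonoidHom.inl Vt (FreeGroup J)) (MonoidHom.id Vt)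
    hw.inj (VGW_inl J).inj hw' h2
  rw [MonoidHom.comp_id] at h
  exact h

end Pool.Agent.AGR
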